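import Pool.Agent.H97.NR.Stmts

/-! Matrix form of the scaled congruence `Eq2a`. -/

namespace Pool.NR.B80

open Matrix

variable {p : ℕ} [Fact p.Prime]

theorem eqm {B B' : Fin 3 → Fin 3 → ZMod p} {g : Matrix (Fin 3) (Fin 3) (ZMod p)} {r : ZMod p} :
    (∀ i j, r * B' i j = ∑ k, ∑ l, g k i * g l j * B k l) ↔
      r • Matrix.of B' = gᵀ * Matrix.of B * g := by
  constructor
  · intro h
    ext i j
    rw [Matrix.smul_apply, Matrix.of_apply, smul_eq_mul, h i j, Matrix.mul_apply]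
    simp only [Matrix.mul_apply, Matrix.transpose_apply, Matrix.of_apply, Finset.sum_mul]
    rw [Finset.sum_comm]
    refine Finset.sum_congr rfl fun l _ => Finset.sum_congr rfl fun k _ => ?_
    ring
  · intro h i j
    have := congrFun (congrFun h i) j
    rw [Matrix.smul_apply, Matrix.of_apply, smul_eq_mul, Matrix.mul_apply] at this
    rw [this]
    simp only [Matrix.mul_apply, Matrix.transpose_apply, Matrix.of_apply, Finset.sum_mul]
    rw [Finset.sum_comm]
    refine Finset.sum_congr rfl fun l _ => Finset.sum_congr rfl fun k _ => ?_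
    ring

theorem eq2a_iff {B B' : Fin 3 → Fin 3 → ZMod p} : Eq2a B B' ↔
    ∃ (g : Matrix (Fin 3) (Fin 3) (ZMod p)) (r : ZMod p), g.det ≠ 0 ∧ r ≠ 0 ∧
      r • Matrix.of B' = gᵀ * Matrix.of B * g := by
  unfold Eq2a
  simp only [eqm]

theorem symm {B B' : Fin 3 → Fin 3 → ZMod p} (h : Eq2a B B') : Eq2a B' B := by
  rw [eq2a_iff] at h ⊢
  obtain ⟨g, r, hg, hr, h⟩ := h
  have hu : IsUnit g.det := isUnit_iff_ne_zero.mpr hg
  refine ⟨g⁻¹, r⁻¹, ?_, inv_ne_zero hr, ?_⟩
  · rw [Matrix.det_nonsing_inv, Ring.inverse_eq_inv']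
    exact inv_ne_zero hg
  · have h1 : Matrix.of B' = r⁻¹ • (gᵀ * Matrix.of B * g) := by
      rw [← h, smul_smul, inv_mul_cancel₀ hr, one_smul]
    rw [h1, Matrix.mul_smul, Matrix.smul_mul]
    congr 1
    rw [Matrix.transpose_nonsing_inv]
    have hut : IsUnit gᵀ.det := by rw [Matrix.det_transpose]; exact hu
    calc Matrix.of B = (gᵀ)⁻¹ * gᵀ * Matrix.of B * (g * g⁻¹) := by
          rw [Matrix.nonsing_inv_mul _ hut, Matrix.mul_nonsing_inv _ hu]; simp
      _ = (gᵀ)⁻¹ * (gᵀ * Matrix.of B * g) * g⁻¹ := by simp only [Matrix.mul_assoc]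

theorem det_eq {B B' : Fin 3 → Fin 3 → ZMod p} (h : Eq2a B B') :
    (Matrix.of B).det = 0 ↔ (Matrix.of B').det = 0 := by
  rw [eq2a_iff] at h
  obtain ⟨g, r, hg, hr, h⟩ := h
  have := congrArg Matrix.det h
  rw [Matrix.det_smul, Matrix.det_mul, Matrix.det_mul, Matrix.det_transpose] at this
  constructor
  · intro h0
    rw [h0] at this
    simp only [mul_zero, zero_mul] at this
    rcases mul_eq_zero.mp this with h1 | h1
    · exact absurd h1 (pow_ne_zero _ hr)
    · exact h1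
  · intro h0
    rw [h0, mul_zero] at this
    rcases mul_eq_zero.mp this.symm with h1 | h1
    · rcases mul_eq_zero.mp h1 with h2 | h2
      · exact absurd h2 hg
      · exact h2
    · exact absurd h1 hg

/-- The rows are linearly independent. -/
theorem rows {g : Matrix (Fin 3) (Fin 3) (ZMod p)} (hg : g.det ≠ 0) {a b c : ZMod p}
    (h0 : a * g 0 0 + b * g 1 0 + c * g 2 0 = 0)
    (h1 : a * g 0 1 + b * g 1 1 + c * g 2 1 = 0)
    (h2 : a * g 0 2 + b * g 1 2 + c * g 2 2 = 0) : a = 0 ∧ b = 0 ∧ c = 0 := by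
  have hd := Matrix.det_fin_three g
  refine ⟨?_, ?_, ?_⟩
  · have : a * g.det = 0 := by
      rw [hd]
      linear_combination (g 1 1 * g 2 2 - g 1 2 * g 2 1) * h0 -
        (g 1 0 * g 2 2 - g 1 2 * g 2 0) * h1 + (g 1 0 * g 2 1 - g 1 1 * g 2 0) * h2
    rcases mul_eq_zero.mp this with h | h
    · exact h
    · exact absurd h hg
  · have : b * g.det = 0 := by
      rw [hd]
      linear_combination -(g 0 1 * g 2 2 - g 0 2 * g 2 1) * h0 +
        (g 0 0 * g 2 2 - g 0 2 * g 2 0) * h1 - (g 0 0 * g 2 1 - g 0 1 * g 2 0) * h2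
    rcases mul_eq_zero.mp this with h | h
    · exact h
    · exact absurd h hg
  · have : c * g.det = 0 := by
      rw [hd]
      linear_combination (g 0 1 * g 1 2 - g 0 2 * g 1 1) * h0 -
        (g 0 0 * g 1 2 - g 0 2 * g 1 0) * h1 + (g 0 0 * g 1 1 - g 0 1 * g 1 0) * h2
    rcases mul_eq_zero.mp this with h | h
    · exact h
    · exact absurd h hg

end Pool.NR.B80
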