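import Pool.Agent.H80.NR.Base

namespace Pool.NR

open B80

namespace U2C

open Matrix

variable {p : ℕ} [Fact p.Prime]

/-- Alternating forms. -/
private theorem alt {B B' : Fin 3 → Fin 3 → ZMod p} (h : Eq2a B B') (hB : Alt3 B) : Alt3 B' := by
  obtain ⟨g, r, hg, hr, h⟩ := h
  have h2 : ∀ i j, r * (B' i j + B' j i) = 0 := by
    intro i j
    rw [mul_add, h i j, h j i, Finset.sum_comm, ← Finset.sum_add_distrib]
    refine Finset.sum_eq_zero fun k _ => ?_
    rw [← Finset.sum_add_distrib]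
    refine Finset.sum_eq_zero fun l _ => ?_
    rw [hB.2 l k]
    ring
  have h1 : ∀ i, r * B' i i = 0 := by
    intro i
    rw [h i i]
    have e0 := hB.1 0
    have e1 := hB.1 1
    have e2 := hB.1 2
    have e3 := hB.2 0 1
    have e4 := hB.2 0 2
    have e5 := hB.2 1 2
    simp only [Fin.sum_univ_three, e0, e1, e2, e3, e4, e5]
    ring
  refine ⟨fun i => (mul_eq_zero.mp (h1 i)).resolve_left hr, fun i j => ?_⟩
  have := (mul_eq_zero.mp (h2 i j)).resolve_left hr
  exact eq_neg_of_add_eq_zero_left this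

private theorem sym {B B' : Fin 3 → Fin 3 → ZMod p} (h : Eq2a B B') (hB : Sym3 B) : Sym3 B' := by
  obtain ⟨g, r, hg, hr, h⟩ := h
  intro i j
  refine mul_left_cancel₀ hr ?_
  rw [h i j, h j i, Finset.sum_comm]
  refine Finset.sum_congr rfl fun k _ => Finset.sum_congr rfl fun l _ => ?_
  rw [hB l k]
  ring

/-- A common kernel vector. -/
private def Ker (B : Fin 3 → Fin 3 → ZMod p) : Prop :=
  ∃ v : Fin 3 → ZMod p, v ≠ 0 ∧ Matrix.of B *ᵥ v = 0 ∧ v ᵥ* Matrix.of B = 0

private theorem mvc {A : Matrix (Fin 3) (Fin 3) (ZMod p)} (hA : IsUnit A.det)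
    {w w' : Fin 3 → ZMod p} (h : A *ᵥ w = A *ᵥ w') : w = w' := by
  have := congrArg (fun x => A⁻¹ *ᵥ x) h
  simpa [Matrix.mulVec_mulVec, Matrix.nonsing_inv_mul _ hA] using this

private theorem vmc {A : Matrix (Fin 3) (Fin 3) (ZMod p)} (hA : IsUnit A.det)
    {w w' : Fin 3 → ZMod p} (h : w ᵥ* A = w' ᵥ* A) : w = w' := by
  have := congrArg (fun x => x ᵥ* A⁻¹) h
  simpa [Matrix.vecMul_vecMul, Matrix.mul_nonsing_inv _ hA] using this

private theorem ker {B B' : Fin 3 → Fin 3 → ZMod p} (h : Eq2a B B') (hB : Ker B') : Ker B := by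
  rw [eq2a_iff] at h
  obtain ⟨g, r, hg, hr, h⟩ := h
  obtain ⟨v, hv, h1, h2⟩ := hB
  have hu : IsUnit g.det := isUnit_iff_ne_zero.mpr hg
  have hut : IsUnit gᵀ.det := by rw [Matrix.det_transpose]; exact hu
  refine ⟨g *ᵥ v, ?_, ?_, ?_⟩
  · intro h0
    apply hv
    exact mvc hu (by rw [h0, Matrix.mulVec_zero])
  · refine mvc hut ?_
    rw [Matrix.mulVec_mulVec, Matrix.mulVec_mulVec, ← h, Matrix.smul_mulVec, h1, smul_zero,
      Matrix.mulVec_zero]
  · refine vmc hu ?_
    have : g *ᵥ v = v ᵥ* gᵀ := by rw [Matrix.vecMul_transpose]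
    rw [this, Matrix.vecMul_vecMul, Matrix.vecMul_vecMul, ← Matrix.mul_assoc, ← h,
      Matrix.vecMul_smul, h2, smul_zero, Matrix.zero_vecMul]

/-- A vector in the kernel of the antisymmetric part, not isotropic. -/
private def Ani (B : Fin 3 → Fin 3 → ZMod p) : Prop :=
  ∃ v : Fin 3 → ZMod p, Matrix.of B *ᵥ v = v ᵥ* Matrix.of B ∧ v ⬝ᵥ (Matrix.of B *ᵥ v) ≠ 0

private theorem ani {B B' : Fin 3 → Fin 3 → ZMod p} (h : Eq2a B B') (hB : Ani B') : Ani B := by
  rw [eq2a_iff] at h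
  obtain ⟨g, r, hg, hr, h⟩ := h
  obtain ⟨v, h1, h2⟩ := hB
  have hu : IsUnit g.det := isUnit_iff_ne_zero.mpr hg
  have hut : IsUnit gᵀ.det := by rw [Matrix.det_transpose]; exact hu
  have a1 : gᵀ *ᵥ (Matrix.of B *ᵥ (g *ᵥ v)) = r • (Matrix.of B' *ᵥ v) := by
    rw [Matrix.mulVec_mulVec, Matrix.mulVec_mulVec, ← h, Matrix.smul_mulVec]
  have a2 : ((g *ᵥ v) ᵥ* Matrix.of B) ᵥ* g = r • (v ᵥ* Matrix.of B') := by
    have : g *ᵥ v = v ᵥ* gᵀ := by rw [Matrix.vecMul_transpose]
    rw [this, Matrix.vecMul_vecMul, Matrix.vecMul_vecMul, ← Matrix.mul_assoc, ← h,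
      Matrix.vecMul_smul]
  refine ⟨g *ᵥ v, ?_, ?_⟩
  · refine mvc hut ?_
    rw [a1, h1, ← a2, Matrix.mulVec_transpose]
  · have e : (g *ᵥ v) ⬝ᵥ (Matrix.of B *ᵥ (g *ᵥ v)) = r * (v ⬝ᵥ (Matrix.of B' *ᵥ v)) := by
      have : g *ᵥ v = v ᵥ* gᵀ := by rw [Matrix.vecMul_transpose]
      calc (g *ᵥ v) ⬝ᵥ (Matrix.of B *ᵥ (g *ᵥ v))
          = (v ᵥ* gᵀ) ⬝ᵥ (Matrix.of B *ᵥ (g *ᵥ v)) := by rw [← this]
        _ = v ⬝ᵥ (gᵀ *ᵥ (Matrix.of B *ᵥ (g *ᵥ v))) := (Matrix.dotProduct_mulVec v gᵀ _).symm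
        _ = r * (v ⬝ᵥ (Matrix.of B' *ᵥ v)) := by rw [a1, dotProduct_smul, smul_eq_mul]
    rw [e]
    exact mul_ne_zero hr h2

private theorem two_ne (hp : p ≠ 2) : (2 : ZMod p) ≠ 0 := by
  intro h
  have h' : ((2 : ℕ) : ZMod p) = 0 := by exact_mod_cast h
  rw [ZMod.natCast_eq_zero_iff] at h'
  exact hp ((Nat.prime_dvd_prime_iff_eq (Fact.out : p.Prime) Nat.prime_two).mp h')

private theorem mker {B : Fin 3 → Fin 3 → ZMod p} (h : NF2aM B) : Ker B := by
  cases h with
  | m δ =>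
    refine ⟨![0, 0, 1], ?_, ?_, ?_⟩
    · intro h
      have := congrFun h 2
      simp at this
    · ext i
      fin_cases i <;> simp [Matrix.mulVec, dotProduct, Fin.sum_univ_three]
    · ext i
      fin_cases i <;> simp [Matrix.vecMul, dotProduct, Fin.sum_univ_three]

private theorem kere {B : Fin 3 → Fin 3 → ZMod p} (h : NF2aE B) : ¬ Ker B := by
  rintro ⟨v, hv, h1, h2⟩
  apply hv
  have a0 := congrFun h1 0
  have a1 := congrFun h1 1
  have a2 := congrFun h1 2
  have b0 := congrFun h2 0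
  have b1 := congrFun h2 1
  have b2 := congrFun h2 2
  cases h with
  | m1 δ =>
    simp [Matrix.mulVec, Matrix.vecMul, dotProduct, Fin.sum_univ_three] at a0 a1 a2 b0 b1 b2
    ext i
    fin_cases i
    · exact a0
    · exact b1
    · simpa [b1] using a1
  | j1 hp =>
    simp [Matrix.mulVec, Matrix.vecMul, dotProduct, Fin.sum_univ_three] at a0 a1 a2 b0 b1 b2
    ext i
    fin_cases i
    · exact a0
    · exact a2
    · exact a1
  | e1 s hp hs hs1 =>
    have hs0 := hs.1
    simp [Matrix.mulVec, Matrix.vecMul, dotProduct, Fin.sum_univ_three, hs0] at a0 a1 a2 b0 b1 b2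
    ext i
    fin_cases i
    · exact a0
    · exact b1
    · simpa [b1] using a1

private theorem kern {B : Fin 3 → Fin 3 → ZMod p} (h : NF2aN B) : ¬ Ker B := by
  rintro ⟨v, hv, h1, h2⟩
  apply hv
  have a0 := congrFun h1 0
  have a1 := congrFun h1 1
  have a2 := congrFun h1 2
  have b0 := congrFun h2 0
  have b1 := congrFun h2 1
  have b2 := congrFun h2 2
  cases h with
  | n1 s hs =>
    simp [Matrix.mulVec, Matrix.vecMul, dotProduct, Fin.sum_univ_three] at a0 a1 a2 b0 b1 b2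
    ext i
    fin_cases i
    · exact a1
    · exact a0
    · simpa [a1] using b1
  | n2 hp =>
    simp [Matrix.mulVec, Matrix.vecMul, dotProduct, Fin.sum_univ_three] at a0 a1 a2 b0 b1 b2
    have x0 : v 0 = 0 := by simpa [a0] using a1
    ext i
    fin_cases i
    · exact x0
    · exact a0
    · simpa [x0, a0] using b1

private theorem anie {B : Fin 3 → Fin 3 → ZMod p} (h : NF2aE B) : Ani B := by
  cases h with
  | m1 δ =>
    refine ⟨![1, 0, 0], ?_, ?_⟩
    · ext i
      fin_cases i <;> simp [Matrix.mulVec, Matrix.vecMul, dotProduct, Fin.sum_univ_three]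
    · simp [Matrix.mulVec, dotProduct, Fin.sum_univ_three]
  | j1 hp =>
    refine ⟨![1, 0, 0], ?_, ?_⟩
    · ext i
      fin_cases i <;> simp [Matrix.mulVec, Matrix.vecMul, dotProduct, Fin.sum_univ_three]
    · simp [Matrix.mulVec, dotProduct, Fin.sum_univ_three]
  | e1 s hp hs hs1 =>
    refine ⟨![1, 0, 0], ?_, ?_⟩
    · ext i
      fin_cases i <;> simp [Matrix.mulVec, Matrix.vecMul, dotProduct, Fin.sum_univ_three]
    · simp [Matrix.mulVec, dotProduct, Fin.sum_univ_three]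

private theorem anin {B : Fin 3 → Fin 3 → ZMod p} (h : NF2aN B) : ¬ Ani B := by
  rintro ⟨v, h1, h2⟩
  apply h2
  have a1 := congrFun h1 1
  have a2 := congrFun h1 2
  cases h with
  | n1 s hs =>
    simp [Matrix.mulVec, Matrix.vecMul, dotProduct, Fin.sum_univ_three] at a1 a2
    have a3 : v 1 = 0 := by linear_combination a2
    simp [Matrix.mulVec, dotProduct, Fin.sum_univ_three, a1, a3]
  | n2 hp =>
    simp [Matrix.mulVec, Matrix.vecMul, dotProduct, Fin.sum_univ_three] at a1 a2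
    have a3 : v 1 = 0 := by linear_combination a2
    simp [Matrix.mulVec, dotProduct, Fin.sum_univ_three, a1, a3]

private theorem alta : Alt3 (p := p) ![![0, 1, 0], ![-1, 0, 0], ![0, 0, 0]] := by
  refine ⟨fun i => ?_, fun i j => ?_⟩
  · fin_cases i <;> simp
  · fin_cases i <;> fin_cases j <;> simp

private theorem alts {B : Fin 3 → Fin 3 → ZMod p} (h : NF2aS B) : ¬ Alt3 B := by
  intro hA
  have := hA.1 0
  cases h <;> simp at this

private theorem altm {B : Fin 3 → Fin 3 → ZMod p} (h : NF2aM B) : ¬ Alt3 B := by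
  intro hA
  have := hA.1 0
  cases h <;> simp at this

private theorem alte {B : Fin 3 → Fin 3 → ZMod p} (h : NF2aE B) : ¬ Alt3 B := by
  intro hA
  have := hA.1 0
  cases h <;> simp at this

private theorem altn {B : Fin 3 → Fin 3 → ZMod p} (h : NF2aN B) : ¬ Alt3 B := by
  intro hA
  have := hA.2 2 1
  cases h <;> simp at this

omit [Fact p.Prime] in
private theorem syms {B : Fin 3 → Fin 3 → ZMod p} (h : NF2aS B) : Sym3 B := by
  intro i j
  cases h <;> fin_cases i <;> fin_cases j <;> simp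

private theorem symm' {B : Fin 3 → Fin 3 → ZMod p} (h : NF2aM B) : ¬ Sym3 B := by
  intro hA
  have := hA 0 1
  cases h
  simp at this

private theorem syme {B : Fin 3 → Fin 3 → ZMod p} (h : NF2aE B) : ¬ Sym3 B := by
  intro hA
  have := hA 1 2
  cases h with
  | m1 δ => simp at this
  | j1 hp =>
    simp at this
    apply two_ne hp
    linear_combination this
  | e1 s hp hs hs1 => simp at this

private theorem symn {B : Fin 3 → Fin 3 → ZMod p} (h : NF2aN B) : ¬ Sym3 B := by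
  intro hA
  have := hA 1 2
  cases h <;> simp at this

end U2C

open U2C in
theorem u2c : U2CStmt := by
  intro p _ B B' hB hB' hE
  have hE' := symm hE
  cases hB with
  | alt =>
    have hA := U2C.alt hE U2C.alta
    cases hB' with
    | alt => exact Or.inl rfl
    | s _ h => exact absurd hA (U2C.alts h)
    | m _ h => exact absurd hA (U2C.altm h)
    | e _ h => exact absurd hA (U2C.alte h)
    | n _ h => exact absurd hA (U2C.altn h)
  | s _ h =>
    have hS := U2C.sym hE (U2C.syms h)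
    cases hB' with
    | alt => exact absurd (U2C.alt hE' U2C.alta) (U2C.alts h)
    | s _ h' => exact Or.inr (Or.inl ⟨h, h'⟩)
    | m _ h' => exact absurd hS (U2C.symm' h')
    | e _ h' => exact absurd hS (U2C.syme h')
    | n _ h' => exact absurd hS (U2C.symn h')
  | m _ h =>
    cases hB' with
    | alt => exact absurd (U2C.alt hE' U2C.alta) (U2C.altm h)
    | s _ h' => exact absurd (U2C.sym hE' (U2C.syms h')) (U2C.symm' h)
    | m _ h' => exact Or.inr (Or.inr (Or.inl ⟨h, h'⟩))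
    | e _ h' => exact absurd (U2C.ker hE' (U2C.mker h)) (U2C.kere h')
    | n _ h' => exact absurd (U2C.ker hE' (U2C.mker h)) (U2C.kern h')
  | e _ h =>
    cases hB' with
    | alt => exact absurd (U2C.alt hE' U2C.alta) (U2C.alte h)
    | s _ h' => exact absurd (U2C.sym hE' (U2C.syms h')) (U2C.syme h)
    | m _ h' => exact absurd (U2C.ker hE (U2C.mker h')) (U2C.kere h)
    | e _ h' => exact Or.inr (Or.inr (Or.inr (Or.inl ⟨h, h'⟩)))
    | n _ h' => exact absurd (U2C.ani hE' (U2C.anie h)) (U2C.anin h')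
  | n _ h =>
    cases hB' with
    | alt => exact absurd (U2C.alt hE' U2C.alta) (U2C.altn h)
    | s _ h' => exact absurd (U2C.sym hE' (U2C.syms h')) (U2C.symn h)
    | m _ h' => exact absurd (U2C.ker hE (U2C.mker h')) (U2C.kern h)
    | e _ h' => exact absurd (U2C.ani hE (U2C.anie h')) (U2C.anin h)
    | n _ h' => exact Or.inr (Or.inr (Or.inr (Or.inr ⟨h, h'⟩)))

end Pool.NR
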