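import Pool.Agent.H80.NR.Base

namespace Pool.NR

open B80

theorem u2m : U2MStmt := by
  intro p _ B B' hB hB' hE
  cases hB with
  | m δ =>
  cases hB' with
  | m δ' =>
  obtain ⟨g, r, hg, hr, h⟩ := hE
  have h : ∀ i j, r * (![![1, 1, 0], ![0, δ', 0], ![0, 0, 0]] : Fin 3 → Fin 3 → ZMod p) i j =
      g 0 i * g 0 j + g 0 i * g 1 j + δ * (g 1 i * g 1 j) := by
    intro i j
    rw [h i j]
    simp [Fin.sum_univ_three]
    ring
  have h00 := h 0 0
  have h01 := h 0 1
  have h10 := h 1 0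
  have h11 := h 1 1
  have h02 := h 0 2
  have h12 := h 1 2
  have h22 := h 2 2
  have h20 := h 2 0
  have h21 := h 2 1
  simp only [Matrix.cons_val_zero, Matrix.cons_val_one, Matrix.cons_val, mul_zero, mul_one]
    at h00 h01 h10 h11 h02 h12 h22 h20 h21
  obtain ⟨a1, a2, -⟩ := rows hg (a := g 0 2 + g 1 2) (b := δ * g 1 2) (c := 0)
    (by linear_combination -h02) (by linear_combination -h12) (by linear_combination -h22)
  obtain ⟨b1, b2, -⟩ := rows hg (a := g 0 2) (b := g 0 2 + δ * g 1 2) (c := 0)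
    (by linear_combination -h20) (by linear_combination -h21) (by linear_combination -h22)
  have c1 : g 1 2 = 0 := by linear_combination a1 - b1
  have hD : g 0 0 * g 1 1 - g 0 1 * g 1 0 ≠ 0 := by
    intro h0
    apply hg
    rw [Matrix.det_fin_three, b1, c1]
    linear_combination g 2 2 * h0
  have k1 : r = g 0 0 * g 1 1 - g 0 1 * g 1 0 := by linear_combination h01 - h10
  have k2 : (g 0 0 * g 1 1 - g 0 1 * g 1 0) ^ 2 * (δ' - δ) = 0 := by
    have e : r ^ 2 * δ' = (g 0 0 * g 1 1 - g 0 1 * g 1 0) ^ 2 * δ := by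
      linear_combination (r * δ') * h00 +
        (g 0 0 * g 0 0 + g 0 0 * g 1 0 + δ * (g 1 0 * g 1 0)) * h11 -
        (g 0 1 * g 0 0 + g 0 1 * g 1 0 + δ * (g 1 1 * g 1 0)) * h01 - r * h10
    rw [k1] at e
    linear_combination e
  have : δ' = δ := by
    rcases mul_eq_zero.mp k2 with h | h
    · exact absurd (pow_eq_zero_iff (two_ne_zero) |>.mp h) hD
    · exact sub_eq_zero.mp h
  rw [this]

end Pool.NR
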