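import Pool.Agent.H80.NR.Base

namespace Pool.NR

open B80

namespace U2N

private theorem z2 : ∀ x : ZMod 2, x = 0 ∨ x = 1 := by decide

private theorem z20 : (2 : ZMod 2) = 0 := by decide

variable {p : ℕ} [Fact p.Prime]

private theorem two_pt (hp : p = 2) (x : ZMod p) : x = 0 ∨ x = 1 := by
  subst hp
  exact z2 x

private theorem n12 (hp : p = 2) : ¬ Eq2a (p := p) ![![0, 1, 0], ![1, 0, 0], ![0, 1, 1]]
    ![![0, 1, 0], ![1, 1, 0], ![0, 1, 1]] := by
  rintro ⟨g, r, hg, hr, h⟩
  have h : ∀ i j, r * (![![0, 1, 0], ![1, 1, 0], ![0, 1, 1]] : Fin 3 → Fin 3 → ZMod p) i j =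
      g 0 i * g 1 j + g 1 i * g 0 j + g 2 i * g 1 j + g 2 i * g 2 j := by
    intro i j
    rw [h i j]
    simp [Fin.sum_univ_three]
    ring
  have h01 := h 0 1
  have h10 := h 1 0
  have h11 := h 1 1
  have h02 := h 0 2
  have h20 := h 2 0
  have h12 := h 1 2
  have h21 := h 2 1
  simp only [Matrix.cons_val_zero, Matrix.cons_val_one, Matrix.cons_val, mul_zero, mul_one]
    at h01 h10 h11 h02 h20 h12 h21
  have hr1 : r = 1 := (two_pt hp r).resolve_left hr
  have h2 : (2 : ZMod p) = 0 := by subst hp; exact z20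
  have a1 : g 2 1 * g 1 2 - g 2 2 * g 1 1 ≠ 0 := by
    intro h0
    apply hr
    linear_combination h21 - h12 - h0
  have a2 : g 2 0 = 0 := by
    have : g 2 0 * (g 2 1 * g 1 2 - g 2 2 * g 1 1) = 0 := by
      linear_combination g 2 1 * (h20 - h02) - g 2 2 * (h10 - h01)
    exact (mul_eq_zero.mp this).resolve_right a1
  have a3 : g 1 0 = 0 := by
    have : g 1 0 * (g 2 1 * g 1 2 - g 2 2 * g 1 1) = 0 := by
      linear_combination g 1 1 * (h20 - h02) - g 1 2 * (h10 - h01)
    exact (mul_eq_zero.mp this).resolve_right a1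
  rw [a2, a3] at h01
  have a4 : g 1 1 = 1 := by
    rcases two_pt hp (g 1 1) with h | h
    · exfalso
      apply hr
      rw [h] at h01
      linear_combination h01
    · exact h
  rw [a4, hr1] at h11
  rcases two_pt hp (g 2 1) with h | h
  · rw [h] at h11
    have : (1 : ZMod p) = 0 := by linear_combination h11 + g 0 1 * h2
    exact one_ne_zero this
  · rw [h] at h11
    have : (1 : ZMod p) = 0 := by linear_combination h11 + (g 0 1 + 1) * h2
    exact one_ne_zero this

end U2N

open U2N in
theorem u2n : U2NStmt := by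
  intro p _ B B' hB hB' hE
  have hd := det_eq hE
  cases hB with
  | n1 s hs =>
    cases hB' with
    | n1 s' hs' =>
      rcases hs with rfl | rfl <;> rcases hs' with rfl | rfl <;>
        first
          | rfl
          | (simp [Matrix.det_fin_three] at hd)
    | n2 hp =>
      rcases hs with rfl | rfl
      · simp [Matrix.det_fin_three] at hd
      · exact absurd hE (U2N.n12 hp)
  | n2 hp =>
    cases hB' with
    | n1 s' hs' =>
      rcases hs' with rfl | rfl
      · simp [Matrix.det_fin_three] at hd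
      · exact absurd (symm hE) (U2N.n12 hp)
    | n2 _ => rfl

end Pool.NR
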