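import Pool.Agent.H80.NR.Base

namespace Pool.NR

open B80

namespace U2S

variable {p : ℕ} [Fact p.Prime]

/-- Scalar equations for a diagonal form. -/
private theorem ex {a b c : ZMod p} {B' : Fin 3 → Fin 3 → ZMod p}
    {g : Matrix (Fin 3) (Fin 3) (ZMod p)} {r : ZMod p}
    (h : ∀ i j, r * B' i j = ∑ k, ∑ l, g k i * g l j *
      (![![a, 0, 0], ![0, b, 0], ![0, 0, c]] : Fin 3 → Fin 3 → ZMod p) k l) (i j : Fin 3) :
    r * B' i j = a * (g 0 i * g 0 j) + b * (g 1 i * g 1 j) + c * (g 2 i * g 2 j) := by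
  rw [h i j]
  simp [Fin.sum_univ_three]
  ring

private theorem e21 {s : ZMod p} (hs : s ≠ 0) :
    ¬ Eq2a (p := p) ![![1, 0, 0], ![0, s, 0], ![0, 0, 0]] ![![1, 0, 0], ![0, 0, 0], ![0, 0, 0]] := by
  rintro ⟨g, r, hg, hr, h⟩
  have h := ex h
  have h01 := h 0 1
  have h02 := h 0 2
  have h11 := h 1 1
  have h12 := h 1 2
  have h22 := h 2 2
  simp only [Matrix.cons_val_zero, Matrix.cons_val_one, Matrix.cons_val, mul_zero, one_mul,
    zero_mul, add_zero] at h01 h02 h11 h12 h22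
  have m1 : g 0 1 * g 1 2 - g 0 2 * g 1 1 = 0 := by
    have : s * (g 0 1 * g 1 2 - g 0 2 * g 1 1) ^ 2 = 0 := by
      linear_combination -(g 0 2 * g 0 2 + s * (g 1 2 * g 1 2)) * h11 +
        (g 0 1 * g 0 2 + s * (g 1 1 * g 1 2)) * h12
    rcases mul_eq_zero.mp this with h | h
    · exact absurd h hs
    · exact pow_eq_zero_iff (two_ne_zero) |>.mp h
  have m2 : g 0 0 * g 1 1 - g 0 1 * g 1 0 = 0 := by
    have : s * (g 0 0 * g 1 1 - g 0 1 * g 1 0) ^ 2 = 0 := by
      linear_combination -(g 0 0 * g 0 0 + s * (g 1 0 * g 1 0)) * h11 +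
        (g 0 0 * g 0 1 + s * (g 1 0 * g 1 1)) * h01
    rcases mul_eq_zero.mp this with h | h
    · exact absurd h hs
    · exact pow_eq_zero_iff (two_ne_zero) |>.mp h
  have m3 : g 0 0 * g 1 2 - g 0 2 * g 1 0 = 0 := by
    have : s * (g 0 0 * g 1 2 - g 0 2 * g 1 0) ^ 2 = 0 := by
      linear_combination -(g 0 0 * g 0 0 + s * (g 1 0 * g 1 0)) * h22 +
        (g 0 0 * g 0 2 + s * (g 1 0 * g 1 2)) * h02
    rcases mul_eq_zero.mp this with h | h
    · exact absurd h hs
    · exact pow_eq_zero_iff (two_ne_zero) |>.mp h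
  apply hg
  rw [Matrix.det_fin_three]
  linear_combination g 2 0 * m1 - g 2 1 * m3 + g 2 2 * m2

private theorem e22 (hk : KRUStmt) {s s' : ZMod p} (hs : KRep p 2 s) (hs' : KRep p 2 s')
    (hE : Eq2a (p := p) ![![1, 0, 0], ![0, s, 0], ![0, 0, 0]]
      ![![1, 0, 0], ![0, s', 0], ![0, 0, 0]]) : s = s' := by
  obtain ⟨g, r, hg, hr, h⟩ := hE
  have h := ex h
  have h00 := h 0 0
  have h01 := h 0 1
  have h11 := h 1 1
  have h02 := h 0 2
  have h12 := h 1 2
  have h22 := h 2 2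
  simp only [Matrix.cons_val_zero, Matrix.cons_val_one, Matrix.cons_val, mul_zero, one_mul,
    zero_mul, add_zero, mul_one] at h00 h01 h11 h02 h12 h22
  have hz := rows hg (a := g 0 2) (b := s * g 1 2) (c := 0) (by linear_combination -h02)
    (by linear_combination -h12) (by linear_combination -h22)
  obtain ⟨z1, z2, -⟩ := hz
  have z2 : g 1 2 = 0 := by
    rcases mul_eq_zero.mp z2 with h | h
    · exact absurd h hs.1
    · exact h
  have hD : g 0 0 * g 1 1 - g 0 1 * g 1 0 ≠ 0 := by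
    intro h0
    apply hg
    rw [Matrix.det_fin_three, z1, z2]
    linear_combination g 2 2 * h0
  have key : s' = s * ((g 0 0 * g 1 1 - g 0 1 * g 1 0) / r) ^ 2 := by
    field_simp
    linear_combination (g 0 1 * g 0 1 + s * (g 1 1 * g 1 1)) * h00 + r * h11 -
      (g 0 0 * g 0 1 + s * (g 1 0 * g 1 1)) * h01
  exact hk p 2 s s' _ hs hs' (div_ne_zero hD hr) key

end U2S

open U2S in
theorem u2s (h1 : KRUStmt) : U2SStmt := by
  intro p _ B B' hB hB' hE
  have hE' := symm hE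
  have hd := det_eq hE
  cases hB with
  | r1 =>
    cases hB' with
    | r1 => rfl
    | r2 s hs => exact absurd hE' (U2S.e21 hs.1)
    | r3 => simp [Matrix.det_fin_three] at hd
  | r2 s hs =>
    cases hB' with
    | r1 => exact absurd hE (U2S.e21 hs.1)
    | r2 s' hs' => rw [U2S.e22 h1 hs hs' hE]
    | r3 => simp [Matrix.det_fin_three] at hd
  | r3 =>
    cases hB' with
    | r1 => simp [Matrix.det_fin_three] at hd
    | r2 s' hs' => simp [Matrix.det_fin_three] at hd
    | r3 => rfl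

end Pool.NR
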